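import Mathlib

/-!
# Names of the points and of the half-planes (project UD)

`M` levels, digit positions `(u, v)` with `u, v < g` in lexicographic order, digits `< D`, tables of size `B`.
-/

namespace Pool.Agent.Helper87.UD

/-- Names of the points: digit vector, row coordinates, column coordinates. -/
abbrev Pt (M g D B : ℕ) := (Fin g → Fin g → Fin D) × (Fin M → Fin g → Fin B) × (Fin M → Fin g → Fin B)

/-- The secrets: a table for each level and each digit position. -/
abbrev Sec (M g B : ℕ) := Fin M → Fin g → Fin g → Fin B → Fin B → Bool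

/-- Names of the half-planes. -/
abbrev Nm (M g D B : ℕ) := Fin M × Fin g × Fin g × (Fin M → Fin g → Fin B) × (Fin M → Fin g → Fin B) ×
  (Fin g → Fin g → Fin (D + 1)) × Fin D

variable {M g D B : ℕ}

/-- The bit of the point `p` in the table `(i, u, v)`. -/
def tt (S : Sec M g B) (p : Pt M g D B) (i : Fin M) (u v : Fin g) : Bool := S i u v (p.2.1 i u) (p.2.2 i v)

/-- The perturbed digit `(u, v)` of the point `p` at level `i`. -/
def ss (S : Sec M g B) (p : Pt M g D B) (i : Fin M) (u v : Fin g) : Fin (D + 1) :=
  ⟨(p.1 u v).val + (if tt S p i u v then 1 else 0), by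
    have := (p.1 u v).isLt
    split <;> omega⟩

/-- The levels from `i` on are forgotten. -/
def maskL [NeZero B] (i : Fin M) (b : Fin M → Fin g → Fin B) : Fin M → Fin g → Fin B :=
  fun j u => if j < i then b j u else 0

/-- The digits from the position `(u, v)` on are forgotten. -/
def maskD (u v : Fin g) (s : Fin g → Fin g → Fin (D + 1)) : Fin g → Fin g → Fin (D + 1) :=
  fun u' v' => if u' < u ∨ (u' = u ∧ v' < v) then s u' v' else 0

/-- The name of the half-plane `(i, u, v)` of the point `p` with threshold `θ`. -/
def nm [NeZero B] (S : Sec M g B) (p : Pt M g D B) (i : Fin M) (u v : Fin g) (θ : Fin D) : Nm M g D B :=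
  (i, u, v, maskL i p.2.1, maskL i p.2.2, maskD u v (ss S p i), θ)

end Pool.Agent.Helper87.UD
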