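import Pool.Agent.Helper87.UD.Core

/-!
# Project UD: the theorem `core`
-/

set_option synthInstance.maxSize 4096

namespace Pool.Agent.Helper87.UD

open Finset Pool.Agent.Helper87.EN

variable {M g D B : ℕ} {L : Type*} [Fintype L]

/-- The labels of the half-planes named after a point, up to the position with number `n`. -/
def lab [NeZero B] (lh : Sec M g B → Nm M g D B → L) (n : ℕ) (w : Sec M g B × Pt M g D B) :
    Fin M → Fin g → Fin g → Option (Fin D → L) :=
  fun j u' v' => if idx j u' v' ≤ n then some fun θ => lh w.1 (nm w.1 w.2 j u' v' θ) else none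

/-- The bits of a point before the position with number `n`. -/
def bits (n : ℕ) (w : Sec M g B × Pt M g D B) : Fin M → Fin g → Fin g → Option Bool :=
  fun j u' v' => if idx j u' v' < n then some (tt w.1 w.2 j u' v') else none

/-- Everything that is known before the bit at the position with number `n`. -/
def YY [NeZero B] (lh : Sec M g B → Nm M g D B → L) (n : ℕ) (w : Sec M g B × Pt M g D B) :
    Pt M g D B × (Fin M → Fin g → Fin g → Option (Fin D → L)) × (Fin M → Fin g → Fin g → Option Bool) :=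
  (w.2, lab lh n w, bits n w)

/-- One fibre of `wf`. -/
theorem fibre [NeZero B] (lh : Sec M g B → Nm M g D B → L) (i : Fin M) (u v : Fin g)
    (F : Finset (Sec M g B × Pt M g D B)) (ω) (hF : ∀ w ∈ F, wf i u v w = ω) (hne : F.Nonempty) :
    (F.card : ℝ) * Real.log 2 - 2 * B * (M * g * g * D) * Real.log (Fintype.card L) ≤
      ∑ w ∈ F, Hc (fun T : Fin B × Fin B → Bool => T (w.2.2.1 i u, w.2.2.2 i v))
        fun T => lab lh (idx i u v) (upd i u v w.1 T, w.2) := by
  classical
  obtain ⟨w0, hw0⟩ := hne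
  -- the two coordinates
  set key : Sec M g B × Pt M g D B → Fin B × Fin B := fun w => (w.2.2.1 i u, w.2.2.2 i v) with hkey
  have hinj : Set.InjOn key F := by
    intro w hw w' hw' h
    rw [hkey, Prod.mk.injEq] at h
    exact wf_inj ((hF w hw).trans (hF w' hw').symm) h.1 h.2
  have ex1 : ∀ c : Fin B, ∃ w ∈ F, (∃ w' ∈ F, w'.2.2.1 i u = c) → w.2.2.1 i u = c := by
    intro c
    by_cases h : ∃ w' ∈ F, w'.2.2.1 i u = c
    · obtain ⟨w', h1, h2⟩ := h
      exact ⟨w', h1, fun _ => h2⟩
    · exact ⟨w0, hw0, fun h' => absurd h' h⟩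
  have ex2 : ∀ c : Fin B, ∃ w ∈ F, (∃ w' ∈ F, w'.2.2.2 i v = c) → w.2.2.2 i v = c := by
    intro c
    by_cases h : ∃ w' ∈ F, w'.2.2.2 i v = c
    · obtain ⟨w', h1, h2⟩ := h
      exact ⟨w', h1, fun _ => h2⟩
    · exact ⟨w0, hw0, fun h' => absurd h' h⟩
  have ex3 : ∀ j : Fin B × Fin B, ∃ w ∈ F, (∃ w' ∈ F, key w' = j) → key w = j := by
    intro c
    by_cases h : ∃ w' ∈ F, key w' = c
    · obtain ⟨w', h1, h2⟩ := h
      exact ⟨w', h1, fun _ => h2⟩
    · exact ⟨w0, hw0, fun h' => absurd h' h⟩
  choose r1 r1F r1c using ex1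
  choose r2 r2F r2c using ex2
  choose r3 r3F r3c using ex3
  -- the pattern
  set G : (Fin B × Fin B → Bool) → (Fin B → Fin M → Fin g → Fin g → Fin D → L) ×
      (Fin B → Fin M → Fin g → Fin g → Fin D → L) := fun T =>
    (fun c j u' v' θ => lh (upd i u v w0.1 T) (nm (upd i u v (r1 c).1 T) (r1 c).2 j u' v' θ),
      fun c j u' v' θ => lh (upd i u v w0.1 T) (nm (upd i u v (r2 c).1 T) (r2 c).2 j u' v' θ)) with hG
  have hdet : ∀ w ∈ F, Det G fun T => lab lh (idx i u v) (upd i u v w.1 T, w.2) := by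
    intro w hw T T' hT
    have hS : w.1 = w0.1 := wf_S ((hF w hw).trans (hF w0 hw0).symm)
    funext j u' v'
    unfold lab
    dsimp only
    by_cases hle : idx j u' v' ≤ idx i u v
    · rw [if_pos hle, if_pos hle]
      congr 1
      funext θ
      rcases idx_le hle with hj | ⟨hj, hj2⟩
      · have c1 : w.2.2.1 i u = (r1 (w.2.2.1 i u)).2.2.1 i u := (r1c _ ⟨w, hw, rfl⟩).symm
        have hw1 : wf i u v w = wf i u v (r1 (w.2.2.1 i u)) := (hF w hw).trans (hF _ (r1F _)).symm
        have e1 := congrFun (congrFun (congrFun (congrFun (congrFun (congrArg Prod.fst hT) (w.2.2.1 i u)) j) u') v') θ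
        simp only [hG] at e1
        show lh (upd i u v w.1 T) (nm (upd i u v w.1 T) w.2 j u' v' θ) =
          lh (upd i u v w.1 T') (nm (upd i u v w.1 T') w.2 j u' v' θ)
        rw [names1 hw1 c1 T hj, names1 hw1 c1 T' hj, hS]
        exact e1
      · subst hj
        have c1 : w.2.2.2 j v = (r2 (w.2.2.2 j v)).2.2.2 j v := (r2c _ ⟨w, hw, rfl⟩).symm
        have hw1 : wf j u v w = wf j u v (r2 (w.2.2.2 j v)) := (hF w hw).trans (hF _ (r2F _)).symm
        have e1 := congrFun (congrFun (congrFun (congrFun (congrFun (congrArg Prod.snd hT) (w.2.2.2 j v)) j) u') v') θ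
        simp only [hG] at e1
        show lh (upd j u v w.1 T) (nm (upd j u v w.1 T) w.2 j u' v' θ) =
          lh (upd j u v w.1 T') (nm (upd j u v w.1 T') w.2 j u' v' θ)
        rw [names2 hw1 c1 T hj2, names2 hw1 c1 T' hj2, hS]
        exact e1
    · rw [if_neg hle, if_neg hle]
  have hc := cube G (fun (j : Fin B × Fin B) T => lab lh (idx i u v) (upd i u v (r3 j).1 T, (r3 j).2))
    (fun j => hdet _ (r3F j)) (F.image key)
  rw [card_image_of_injOn hinj, sum_image hinj] at hc
  have h3 : ∀ w ∈ F, r3 (key w) = w := fun w hw => hinj (r3F _) hw (r3c _ ⟨w, hw, rfl⟩)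
  have hs : ∑ w ∈ F, Hc (fun x : Fin B × Fin B → Bool => x (key w))
      (fun T => lab lh (idx i u v) (upd i u v (r3 (key w)).1 T, (r3 (key w)).2)) =
      ∑ w ∈ F, Hc (fun T : Fin B × Fin B → Bool => T (w.2.2.1 i u, w.2.2.2 i v))
        fun T => lab lh (idx i u v) (upd i u v w.1 T, w.2) :=
    sum_congr rfl fun w hw => by rw [h3 w hw]
  rw [hs] at hc
  have hcard : Real.log (Fintype.card ((Fin B → Fin M → Fin g → Fin g → Fin D → L) ×
      (Fin B → Fin M → Fin g → Fin g → Fin D → L))) =
      2 * B * (M * g * g * D) * Real.log (Fintype.card L) := by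
    simp only [Fintype.card_prod, Fintype.card_fun, Fintype.card_fin, Nat.cast_mul, Nat.cast_pow]
    rcases Nat.eq_zero_or_pos (Fintype.card L) with h | h
    · have : IsEmpty L := Fintype.card_eq_zero_iff.mp h
      have hD : D = 0 := by
        by_contra h0
        have hDpos : 0 < D := Nat.pos_of_ne_zero h0
        exact this.false (lh w0.1 (nm w0.1 w0.2 i u v ⟨0, hDpos⟩))
      subst hD
      simp
    · have hL : (Fintype.card L : ℝ) ≠ 0 := by exact_mod_cast h.ne'
      rw [Real.log_mul (by positivity) (by positivity)]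
      simp only [Real.log_pow]
      ring
  rw [hcard] at hc
  exact hc

open Classical in
/-- The number of values of `wf`. -/
theorem card_wf [NeZero B] (i : Fin M) (u v : Fin g) :
    (univ.image (wf (D := D) (B := B) i u v)).card * (B * B) ≤
      Fintype.card (Sec M g B) * ((D + 1) ^ (g * g) * (B ^ (M * g) * B ^ (M * g))) := by
  set W := univ.image (wf (D := D) (B := B) i u v) with hW
  have h0 : ∀ ω ∈ W, ω.2.2.1 i u = 0 ∧ ω.2.2.2 i v = 0 := by
    intro ω hω
    obtain ⟨w, _, rfl⟩ := mem_image.mp hω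
    refine ⟨?_, ?_⟩
    · show zer i u _ i u = 0
      unfold zer
      rw [if_pos ⟨rfl, rfl⟩]
    · show zer i v _ i v = 0
      unfold zer
      rw [if_pos ⟨rfl, rfl⟩]
  have h1 : (W ×ˢ (univ : Finset (Fin B × Fin B))).card ≤
      (univ : Finset (Sec M g B × (Fin g → Fin g → Fin (D + 1)) × (Fin M → Fin g → Fin B) ×
        (Fin M → Fin g → Fin B))).card := by
    refine card_le_card_of_injOn (fun z => (z.1.1, z.1.2.1,
      (fun j u' => if j = i ∧ u' = u then z.2.1 else z.1.2.2.1 j u'),
      (fun j u' => if j = i ∧ u' = v then z.2.2 else z.1.2.2.2 j u'))) (fun _ _ => mem_coe.mpr (mem_univ _)) ?_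
    intro z hz z' hz' h
    have hz1 := h0 _ (mem_product.mp (mem_coe.mp hz)).1
    have hz2 := h0 _ (mem_product.mp (mem_coe.mp hz')).1
    simp only [Prod.mk.injEq] at h
    obtain ⟨h1, h2, h3, h4⟩ := h
    refine Prod.ext (Prod.ext h1 (Prod.ext h2 (Prod.ext ?_ ?_))) (Prod.ext ?_ ?_)
    · funext j u'
      by_cases hj : j = i ∧ u' = u
      · obtain ⟨rfl, rfl⟩ := hj
        rw [hz1.1, hz2.1]
      · have := congrFun (congrFun h3 j) u'
        rwa [if_neg hj, if_neg hj] at this
    · funext j u'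
      by_cases hj : j = i ∧ u' = v
      · obtain ⟨rfl, rfl⟩ := hj
        rw [hz1.2, hz2.2]
      · have := congrFun (congrFun h4 j) u'
        rwa [if_neg hj, if_neg hj] at this
    · have := congrFun (congrFun h3 i) u
      rwa [if_pos ⟨rfl, rfl⟩, if_pos ⟨rfl, rfl⟩] at this
    · have := congrFun (congrFun h4 i) v
      rwa [if_pos ⟨rfl, rfl⟩, if_pos ⟨rfl, rfl⟩] at this
  rw [card_product, card_univ, card_univ] at h1
  simp only [Fintype.card_prod, Fintype.card_fin] at h1
  refine h1.trans (le_of_eq ?_)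
  have e1 : Fintype.card (Fin g → Fin g → Fin (D + 1)) = (D + 1) ^ (g * g) := by
    simp only [Fintype.card_fun, Fintype.card_fin]
    rw [pow_mul]
  have e2 : Fintype.card (Fin M → Fin g → Fin B) = B ^ (M * g) := by
    simp only [Fintype.card_fun, Fintype.card_fin]
    rw [← pow_mul, mul_comm]
  rw [e1, e2]

/-- The bit at one position is almost unknown. -/
theorem local_lb [NeZero B] [NeZero D] [Nonempty L] (lh : Sec M g B → Nm M g D B → L) (i : Fin M) (u v : Fin g)
    (hD : 2 * g ^ 2 ≤ D) :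
    Real.log 2 - 4 * (M * g * g * D) * Real.log (Fintype.card L) / B ≤
      Hc (fun w : Sec M g B × Pt M g D B => tt w.1 w.2 i u v) (YY lh (idx i u v)) := by
  classical
  have hB : (0 : ℝ) < B := by exact_mod_cast Nat.pos_of_ne_zero (NeZero.ne B)
  have hDp : (0 : ℝ) < D := by exact_mod_cast Nat.pos_of_ne_zero (NeZero.ne D)
  have hLn : 0 ≤ Real.log (Fintype.card L) := Real.log_nonneg (by exact_mod_cast Fintype.card_pos)
  -- the product space
  set C := Sec M g B × Pt M g D B with hC
  have hCne : Nonempty C := by rw [hC]; infer_instance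
  have e1 : Hc (fun w : C => tt w.1 w.2 i u v) (YY lh (idx i u v)) =
      Hc (fun z : C × (Fin B × Fin B → Bool) => tt (swE i u v z).1.1 (swE i u v z).1.2 i u v)
        (fun z : C × (Fin B × Fin B → Bool) => YY lh (idx i u v) (swE i u v z).1) := by
    rw [← Hc_fst (X := Fin B × Fin B → Bool) (fun w : C => tt w.1 w.2 i u v) (YY lh (idx i u v))]
    exact (Hc_equiv (swE i u v) (fun z : C × (Fin B × Fin B → Bool) => tt z.1.1 z.1.2 i u v)
      (fun z : C × (Fin B × Fin B → Bool) => YY lh (idx i u v) z.1)).symm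
  have e2 : (fun z : C × (Fin B × Fin B → Bool) => tt (swE i u v z).1.1 (swE i u v z).1.2 i u v) =
      fun z => z.2 (z.1.2.2.1 i u, z.1.2.2.2 i v) := by
    funext z
    show tt (upd i u v z.1.1 z.2) z.1.2 i u v = _
    unfold tt
    rw [upd_self]
  have e3 : Hc (fun z : C × (Fin B × Fin B → Bool) => z.2 (z.1.2.2.1 i u, z.1.2.2.2 i v))
      (fun z => (z.1, lab lh (idx i u v) (upd i u v z.1.1 z.2, z.1.2))) ≤
      Hc (fun z : C × (Fin B × Fin B → Bool) => z.2 (z.1.2.2.1 i u, z.1.2.2.2 i v))
        (fun z : C × (Fin B × Fin B → Bool) => YY lh (idx i u v) (swE i u v z).1) := by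
    refine Hc_anti ?_ _
    intro z z' h
    rw [Prod.mk.injEq] at h
    obtain ⟨h1, h2⟩ := h
    show YY lh (idx i u v) (upd i u v z.1.1 z.2, z.1.2) = YY lh (idx i u v) (upd i u v z'.1.1 z'.2, z'.1.2)
    unfold YY
    refine Prod.ext (congrArg Prod.snd h1) (Prod.ext h2 ?_)
    show bits (idx i u v) (upd i u v z.1.1 z.2, z.1.2) = bits (idx i u v) (upd i u v z'.1.1 z'.2, z'.1.2)
    rw [h1]
    funext j u' v'
    unfold bits
    by_cases hlt : idx j u' v' < idx i u v
    · rw [if_pos hlt, if_pos hlt]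
      have hne : ¬(j = i ∧ u' = u ∧ v' = v) := by
        rintro ⟨rfl, rfl, rfl⟩
        exact lt_irrefl _ hlt
      congr 1
      show tt (upd i u v z'.1.1 z.2) z'.1.2 j u' v' = tt (upd i u v z'.1.1 z'.2) z'.1.2 j u' v'
      unfold tt
      rw [upd_other _ _ hne, upd_other _ _ hne]
    · rw [if_neg hlt, if_neg hlt]
  have e4 := Hc_prod (C := C) (T := Fin B × Fin B → Bool) (fun z => z.2 (z.1.2.2.1 i u, z.1.2.2.2 i v))
    (fun z => lab lh (idx i u v) (upd i u v z.1.1 z.2, z.1.2))
  -- sum over the fibres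
  have e5 : (Fintype.card C : ℝ) * Real.log 2 -
      (univ.image (wf (M := M) (D := D) (B := B) i u v)).card *
        (2 * B * (M * g * g * D) * Real.log (Fintype.card L)) ≤
      ∑ c : C, Hc (fun T : Fin B × Fin B → Bool => T (c.2.2.1 i u, c.2.2.2 i v))
        fun T => lab lh (idx i u v) (upd i u v c.1 T, c.2) := by
    rw [← sum_fiberwise_of_maps_to (s := univ) (t := univ.image (wf (M := M) (D := D) (B := B) i u v))
      (g := wf i u v) (fun w _ => mem_image_of_mem _ (mem_univ _))]
    have e6 : ∀ ω ∈ univ.image (wf (M := M) (D := D) (B := B) i u v),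
        ((univ.filter fun w : C => wf i u v w = ω).card : ℝ) * Real.log 2 -
          2 * B * (M * g * g * D) * Real.log (Fintype.card L) ≤
        ∑ w ∈ univ.filter (fun w : C => wf i u v w = ω),
          Hc (fun T : Fin B × Fin B → Bool => T (w.2.2.1 i u, w.2.2.2 i v))
          fun T => lab lh (idx i u v) (upd i u v w.1 T, w.2) := by
      intro ω hω
      refine fibre lh i u v _ ω (fun w hw => (mem_filter.mp hw).2) ?_
      obtain ⟨w, _, hw⟩ := mem_image.mp hω
      exact ⟨w, mem_filter.mpr ⟨mem_univ _, hw⟩⟩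
    refine le_trans (le_of_eq ?_) (sum_le_sum e6)
    rw [sum_sub_distrib, ← sum_mul, sum_const, nsmul_eq_mul]
    congr 2
    have := card_eq_sum_card_fiberwise (s := (univ : Finset C)) (t := univ.image (wf (M := M) (D := D) (B := B) i u v))
      (f := wf i u v) (fun w _ => mem_coe.mpr (mem_image_of_mem _ (mem_univ _)))
    rw [card_univ] at this
    rw [this]
    push_cast
    rfl
  -- the number of fibres
  have hcC : Fintype.card C = Fintype.card (Sec M g B) * (D ^ (g * g) * (B ^ (M * g) * B ^ (M * g))) := by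
    show Fintype.card (Sec M g B × Pt M g D B) = _
    simp only [Fintype.card_prod]
    have f1 : Fintype.card (Fin g → Fin g → Fin D) = D ^ (g * g) := by
      simp only [Fintype.card_fun, Fintype.card_fin]
      rw [pow_mul]
    have f2 : Fintype.card (Fin M → Fin g → Fin B) = B ^ (M * g) := by
      simp only [Fintype.card_fun, Fintype.card_fin]
      rw [← pow_mul, mul_comm]
    rw [f1, f2]
  have hgrow : ((D : ℝ) + 1) ^ (g * g) ≤ 2 * (D : ℝ) ^ (g * g) := by
    have h1 : ((D : ℝ) + 1) ^ (g * g) = (1 + 1 / D) ^ (g * g) * (D : ℝ) ^ (g * g) := by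
      rw [← mul_pow]
      congr 1
      field_simp
    rw [h1]
    refine mul_le_mul_of_nonneg_right ?_ (by positivity)
    have h2 : (1 + 1 / (D : ℝ)) ^ (g * g) ≤ Real.exp (1 / D) ^ (g * g) :=
      pow_le_pow_left₀ (by positivity) (by rw [add_comm]; exact Real.add_one_le_exp _) _
    refine h2.trans ?_
    rw [← Real.exp_nat_mul]
    have h3 : ((g * g : ℕ) : ℝ) * (1 / D) ≤ 1 / 2 := by
      rw [mul_one_div, div_le_div_iff₀ hDp (by norm_num)]
      have : ((2 * g ^ 2 : ℕ) : ℝ) ≤ D := by exact_mod_cast hD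
      push_cast at this ⊢
      nlinarith
    refine (Real.exp_le_exp.mpr h3).trans ?_
    have h4 : Real.exp (1 / 2) ^ 2 ≤ 2 ^ 2 := by
      rw [← Real.exp_nat_mul]
      have h5 : ((2 : ℕ) : ℝ) * (1 / 2) = 1 := by norm_num
      rw [h5]
      exact Real.exp_one_lt_three.le.trans (by norm_num)
    exact le_of_sq_le_sq h4 (by norm_num)
  have hfib : ((univ.image (wf (M := M) (D := D) (B := B) i u v)).card : ℝ) * (B * B) ≤ 2 * Fintype.card C := by
    have h1 := card_wf (D := D) (B := B) i u v
    have h2 : ((univ.image (wf (M := M) (D := D) (B := B) i u v)).card : ℝ) * (B * B) ≤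
        Fintype.card (Sec M g B) * (((D : ℝ) + 1) ^ (g * g) * ((B : ℝ) ^ (M * g) * (B : ℝ) ^ (M * g))) := by
      exact_mod_cast h1
    refine h2.trans ?_
    rw [hcC]
    push_cast
    have h3 : (0 : ℝ) ≤ Fintype.card (Sec M g B) * ((B : ℝ) ^ (M * g) * (B : ℝ) ^ (M * g)) := by positivity
    have h4 := mul_le_mul_of_nonneg_left hgrow h3
    calc _ = Fintype.card (Sec M g B) * ((B : ℝ) ^ (M * g) * (B : ℝ) ^ (M * g)) * ((D : ℝ) + 1) ^ (g * g) := by ring
      _ ≤ Fintype.card (Sec M g B) * ((B : ℝ) ^ (M * g) * (B : ℝ) ^ (M * g)) * (2 * (D : ℝ) ^ (g * g)) := h4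
      _ = _ := by ring
  -- conclusion
  have hCpos : (0 : ℝ) < Fintype.card C := by exact_mod_cast Fintype.card_pos
  rw [e1, e2]
  refine le_trans ?_ e3
  have e7 : ((univ.image (wf (M := M) (D := D) (B := B) i u v)).card : ℝ) *
      (2 * B * (M * g * g * D) * Real.log (Fintype.card L)) ≤
      Fintype.card C * (4 * (M * g * g * D) * Real.log (Fintype.card L) / B) := by
    have h1 : 0 ≤ 2 * (M * g * g * D) * Real.log (Fintype.card L) / B := by positivity
    have h2 := mul_le_mul_of_nonneg_right hfib h1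
    calc _ = ((univ.image (wf (M := M) (D := D) (B := B) i u v)).card : ℝ) * (B * B) *
          (2 * (M * g * g * D) * Real.log (Fintype.card L) / B) := by
          field_simp
      _ ≤ 2 * Fintype.card C * (2 * (M * g * g * D) * Real.log (Fintype.card L) / B) := h2
      _ = _ := by ring
  have e8 : Fintype.card C * (Real.log 2 - 4 * (M * g * g * D) * Real.log (Fintype.card L) / B) ≤
      Hc (fun z : C × (Fin B × Fin B → Bool) => z.2 (z.1.2.2.1 i u, z.1.2.2.2 i v))
      (fun z => (z.1, lab lh (idx i u v) (upd i u v z.1.1 z.2, z.1.2))) * Fintype.card C := by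
    rw [e4, mul_sub]
    refine le_trans ?_ e5
    linarith
  rw [mul_comm (Fintype.card C : ℝ)] at e8
  exact le_of_mul_le_mul_right e8 hCpos

/-- Labels of the points with `M g²` bits that are revealed one after the other need `M g² / 2` bits. -/
theorem core (M g D B : ℕ) [NeZero M] [NeZero g] [NeZero D] [NeZero B] (L : Type) [Fintype L]
    (lp : Sec M g B → Pt M g D B → L) (lh : Sec M g B → Nm M g D B → L) (A : L → L → Bool)
    (hA : ∀ S p i u v, A (lp S p) (lh S (nm S p i u v (p.1 u v))) = tt S p i u v) (hD : 2 * g ^ 2 ≤ D)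
    (hB : 24 * (M : ℝ) * (g : ℝ) ^ 2 * ((D : ℝ) + 2) * Real.log (Fintype.card L) ≤ B * Real.log 2) :
    (M : ℝ) * (g : ℝ) ^ 2 * Real.log 2 / 2 ≤ Real.log (Fintype.card L) := by
  classical
  have hLne : Nonempty L := ⟨lp (fun _ _ _ _ _ => true) default⟩
  have hBp : (0 : ℝ) < B := by exact_mod_cast Nat.pos_of_ne_zero (NeZero.ne B)
  have hlog2 : 0 < Real.log 2 := Real.log_pos (by norm_num)
  have hLn : 0 ≤ Real.log (Fintype.card L) := Real.log_nonneg (by exact_mod_cast Fintype.card_pos)
  have hgp : 0 < g := Nat.pos_of_ne_zero (NeZero.ne g)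
  have hex : ∀ n : ℕ, ∃ q : Fin M × Fin g × Fin g, n < M * (g * g) → idx q.1 q.2.1 q.2.2 = n := by
    intro n
    by_cases hn : n < M * (g * g)
    · have h1 : n / (g * g) < M := Nat.div_lt_of_lt_mul (by rwa [mul_comm])
      have h2 : n % (g * g) / g < g := Nat.div_lt_of_lt_mul (Nat.mod_lt _ (Nat.mul_pos hgp hgp))
      have h3 : n % (g * g) % g < g := Nat.mod_lt _ hgp
      refine ⟨(⟨_, h1⟩, ⟨_, h2⟩, ⟨_, h3⟩), fun _ => ?_⟩
      show n % (g * g) % g + g * (n % (g * g) / g) + g * g * (n / (g * g)) = n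
      rw [Nat.mod_add_div, Nat.mod_add_div]
    · exact ⟨(⟨0, Nat.pos_of_ne_zero (NeZero.ne M)⟩, ⟨0, hgp⟩, ⟨0, hgp⟩), fun h => absurd h hn⟩
  choose pos hpos using hex
  have hchain := chain (Ω := Sec M g B × Pt M g D B) (τ := fun _ => Bool)
    (υ := fun _ => Pt M g D B × (Fin M → Fin g → Fin g → Option (Fin D → L)) × (Fin M → Fin g → Fin g → Option Bool))
    (fun w => lp w.1 w.2) (fun n w => tt w.1 w.2 (pos n).1 (pos n).2.1 (pos n).2.2) (fun n => YY lh n) (M * (g * g))
    (by
      intro n hn w w' h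
      have h1 : w.2 = w'.2 := congrArg Prod.fst h
      have h2 : lab lh (n + 1) w = lab lh (n + 1) w' := congrArg (fun z => z.2.1) h
      have h3 : bits (n + 1) w = bits (n + 1) w' := congrArg (fun z => z.2.2) h
      refine ⟨Prod.ext h1 (Prod.ext ?_ ?_), ?_⟩
      · show lab lh n w = lab lh n w'
        funext j u v
        have h4 := congrFun (congrFun (congrFun h2 j) u) v
        unfold lab at h4 ⊢
        by_cases hle : idx j u v ≤ n
        · rw [if_pos (hle.trans (Nat.le_succ n)), if_pos (hle.trans (Nat.le_succ n))] at h4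
          rw [if_pos hle, if_pos hle]
          exact h4
        · rw [if_neg hle, if_neg hle]
      · show bits n w = bits n w'
        funext j u v
        have h4 := congrFun (congrFun (congrFun h3 j) u) v
        unfold bits at h4 ⊢
        by_cases hle : idx j u v < n
        · rw [if_pos (hle.trans (Nat.lt_succ_self n)), if_pos (hle.trans (Nat.lt_succ_self n))] at h4
          rw [if_pos hle, if_pos hle]
          exact h4
        · rw [if_neg hle, if_neg hle]
      · have h4 := congrFun (congrFun (congrFun h3 (pos n).1) (pos n).2.1) (pos n).2.2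
        unfold bits at h4
        rw [hpos n hn, if_pos (Nat.lt_succ_self n), if_pos (Nat.lt_succ_self n)] at h4
        exact Option.some.inj h4)
    (by
      intro n hn w w' hl h
      have h1 : w.2 = w'.2 := congrArg Prod.fst h
      have h2 : lab lh n w = lab lh n w' := congrArg (fun z => z.2.1) h
      have h4 := congrFun (congrFun (congrFun h2 (pos n).1) (pos n).2.1) (pos n).2.2
      unfold lab at h4
      rw [hpos n hn, if_pos le_rfl, if_pos le_rfl] at h4
      have h5 := congrFun (Option.some.inj h4) (w.2.1 (pos n).2.1 (pos n).2.2)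
      rw [← hA w.1 w.2, ← hA w'.1 w'.2, hl, h5, h1])
  -- each bit is almost free
  have hterm : ∀ n ∈ range (M * (g * g)), 5 / 6 * Real.log 2 ≤
      Hc (fun w : Sec M g B × Pt M g D B => tt w.1 w.2 (pos n).1 (pos n).2.1 (pos n).2.2) (YY lh n) := by
    intro n hn
    have h1 := local_lb (D := D) lh (pos n).1 (pos n).2.1 (pos n).2.2 hD
    rw [hpos n (mem_range.mp hn)] at h1
    refine le_trans ?_ h1
    have h2 : 4 * (M * g * g * D) * Real.log (Fintype.card L) / B ≤ Real.log 2 / 6 := by
      rw [div_le_div_iff₀ hBp (by norm_num)]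
      have h3 : (M : ℝ) * g ^ 2 * D * Real.log (Fintype.card L) ≤
          M * g ^ 2 * (D + 2) * Real.log (Fintype.card L) := by
        refine mul_le_mul_of_nonneg_right (mul_le_mul_of_nonneg_left (by linarith) (by positivity)) hLn
      nlinarith
    linarith
  have hsum := (card_nsmul_le_sum _ _ _ hterm).trans hchain
  rw [card_range, nsmul_eq_mul] at hsum
  push_cast at hsum
  have h9 : (0 : ℝ) ≤ (M : ℝ) * (g : ℝ) ^ 2 * Real.log 2 := by positivity
  nlinarith

end Pool.Agent.Helper87.UD
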