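import Pool.Agent.Helper87.EN.Ent
import Pool.Agent.Helper87.UD.Defs

/-!
# Project UD: labels of the points need one half bit for each position
-/

namespace Pool.Agent.Helper87.UD

open Finset Pool.Agent.Helper87.EN

section ent

variable {Ω Ω' X α β : Type*} [Fintype Ω] [Fintype Ω'] [Fintype X]

theorem H_equiv (e : Ω' ≃ Ω) (f : Ω → α) : H (fun w => f (e w)) = H f := by
  classical
  unfold H co
  rw [Fintype.card_congr e]
  congr 2
  rw [← e.sum_comp (fun w => Real.log (fib f w))]
  refine sum_congr rfl fun w _ => ?_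
  congr 2
  unfold fib
  refine card_bij' (fun v _ => e v) (fun v _ => e.symm v) ?_ ?_ ?_ ?_
  · intro v hv
    simpa using hv
  · intro v hv
    simpa using hv
  · intro v _
    simp
  · intro v _
    simp

theorem Hc_equiv (e : Ω' ≃ Ω) (f : Ω → α) (g : Ω → β) : Hc (fun w => f (e w)) (fun w => g (e w)) = Hc f g := by
  unfold Hc
  rw [H_equiv e g, H_equiv e fun w => (f w, g w)]

theorem H_fst [Nonempty Ω] [Nonempty X] (f : Ω → α) : H (fun w : Ω × X => f w.1) = H f := by
  classical
  have hn : (Fintype.card Ω : ℝ) ≠ 0 := by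
    have : 0 < Fintype.card Ω := Fintype.card_pos
    exact_mod_cast this.ne'
  have hx : (Fintype.card X : ℝ) ≠ 0 := by
    have : 0 < Fintype.card X := Fintype.card_pos
    exact_mod_cast this.ne'
  have e1 : ∀ w : Ω × X, fib (fun w : Ω × X => f w.1) w = fib f w.1 * Fintype.card X := by
    intro w
    unfold fib
    have : (univ.filter fun v : Ω × X => f v.1 = f w.1) = (univ.filter fun v => f v = f w.1) ×ˢ univ := by
      ext v
      simp
    rw [this, card_product, card_univ]
  have e2 : co (fun w : Ω × X => f w.1) =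
      Fintype.card X * co f + Fintype.card X * (Fintype.card Ω * Real.log (Fintype.card X)) := by
    unfold co
    have e3 : ∀ w : Ω × X, Real.log (fib (fun w : Ω × X => f w.1) w) =
        Real.log (fib f w.1) + Real.log (Fintype.card X) := by
      intro w
      rw [e1 w]
      push_cast
      exact Real.log_mul (by exact_mod_cast (fib_pos f w.1).ne') hx
    rw [sum_congr rfl fun w _ => e3 w, sum_add_distrib, Fintype.sum_prod_type]
    simp only [sum_const, card_univ, nsmul_eq_mul, Fintype.card_prod, Nat.cast_mul]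
    rw [← mul_sum]
    ring
  unfold H
  rw [e2, Fintype.card_prod]
  push_cast
  rw [Real.log_mul hn hx]
  field_simp
  ring

theorem Hc_fst [Nonempty Ω] [Nonempty X] (f : Ω → α) (g : Ω → β) :
    Hc (fun w : Ω × X => f w.1) (fun w : Ω × X => g w.1) = Hc f g := by
  unfold Hc
  rw [H_fst (X := X) g, H_fst (X := X) fun w => (f w, g w)]

end ent

variable {M g D B : ℕ}

/-- Number of a position in the lexicographic order. -/
def idx (i : Fin M) (u v : Fin g) : ℕ := v.val + g * u.val + g * g * i.val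

theorem lexnat {n a a' i i' : ℕ} (ha : a < n) (h : a' + n * i' ≤ a + n * i) : i' < i ∨ (i' = i ∧ a' ≤ a) := by
  rcases lt_trichotomy i' i with h1 | h1 | h1
  · exact Or.inl h1
  · subst h1
    exact Or.inr ⟨rfl, by omega⟩
  · exfalso
    have h2 : n * (i + 1) ≤ n * i' := Nat.mul_le_mul_left n h1
    rw [Nat.mul_add] at h2
    omega

theorem low_lt (u v : Fin g) : v.val + g * u.val < g * g := by
  have h1 := u.isLt
  have h2 := v.isLt
  have h3 : g * (u.val + 1) ≤ g * g := Nat.mul_le_mul_left g h1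
  rw [Nat.mul_add] at h3
  omega

theorem idx_le {i j : Fin M} {u v u' v' : Fin g} (h : idx j u' v' ≤ idx i u v) :
    j < i ∨ (j = i ∧ (u' < u ∨ (u' = u ∧ v' ≤ v))) := by
  unfold idx at h
  rcases lexnat (low_lt u v) h with h1 | ⟨h1, h2⟩
  · exact Or.inl h1
  · refine Or.inr ⟨Fin.ext h1, ?_⟩
    rcases lexnat v.isLt h2 with h3 | ⟨h3, h4⟩
    · exact Or.inl h3
    · exact Or.inr ⟨Fin.ext h3, h4⟩

theorem idx_inj {i j : Fin M} {u v u' v' : Fin g} (h : idx j u' v' = idx i u v) : j = i ∧ u' = u ∧ v' = v := by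
  rcases idx_le h.le with h1 | ⟨h1, h2⟩
  · rcases idx_le h.ge with h3 | ⟨h3, _⟩
    · exact absurd h1 (lt_asymm h3)
    · exact absurd h1 (by rw [h3]; exact lt_irrefl _)
  · refine ⟨h1, ?_⟩
    rcases idx_le h.ge with h3 | ⟨_, h4⟩
    · exact absurd h3 (by rw [h1]; exact lt_irrefl _)
    · rcases h2 with h2 | ⟨h2, h5⟩
      · rcases h4 with h4 | ⟨h4, _⟩
        · exact absurd h2 (lt_asymm h4)
        · exact absurd h2 (by rw [h4]; exact lt_irrefl _)
      · rcases h4 with h4 | ⟨_, h6⟩
        · exact absurd h4 (by rw [h2]; exact lt_irrefl _)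
        · exact ⟨h2, le_antisymm h5 h6⟩

/-- The table at `(i, u, v)` is replaced. -/
def upd (i : Fin M) (u v : Fin g) (S : Sec M g B) (T : Fin B × Fin B → Bool) : Sec M g B :=
  fun i' u' v' => if i' = i ∧ u' = u ∧ v' = v then fun c c' => T (c, c') else S i' u' v'

theorem upd_self (i : Fin M) (u v : Fin g) (S : Sec M g B) (T : Fin B × Fin B → Bool) :
    upd i u v S T i u v = fun c c' => T (c, c') := by
  unfold upd
  rw [if_pos ⟨rfl, rfl, rfl⟩]

theorem upd_other {i : Fin M} {u v : Fin g} (S : Sec M g B) (T : Fin B × Fin B → Bool) {i' : Fin M} {u' v' : Fin g}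
    (h : ¬(i' = i ∧ u' = u ∧ v' = v)) : upd i u v S T i' u' v' = S i' u' v' := by
  unfold upd
  rw [if_neg h]

/-- The table of `S` at `(i, u, v)` is exchanged with the table `T`. -/
def sw (i : Fin M) (u v : Fin g) (w : (Sec M g B × Pt M g D B) × (Fin B × Fin B → Bool)) :
    (Sec M g B × Pt M g D B) × (Fin B × Fin B → Bool) :=
  ((upd i u v w.1.1 w.2, w.1.2), fun c => w.1.1 i u v c.1 c.2)

theorem sw_sw (i : Fin M) (u v : Fin g) (w : (Sec M g B × Pt M g D B) × (Fin B × Fin B → Bool)) :
    sw i u v (sw i u v w) = w := by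
  refine Prod.ext (Prod.ext ?_ rfl) ?_
  · funext i' u' v'
    by_cases h : i' = i ∧ u' = u ∧ v' = v
    · obtain ⟨rfl, rfl, rfl⟩ := h
      show upd i' u' v' _ _ i' u' v' = _
      rw [upd_self]
      rfl
    · show upd i u v _ _ i' u' v' = _
      rw [upd_other _ _ h]
      exact upd_other _ _ h
  · funext c
    show upd i u v _ _ i u v c.1 c.2 = _
    rw [upd_self]

/-- The exchange as an equivalence. -/
def swE (i : Fin M) (u v : Fin g) : ((Sec M g B × Pt M g D B) × (Fin B × Fin B → Bool)) ≃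
    ((Sec M g B × Pt M g D B) × (Fin B × Fin B → Bool)) :=
  ⟨sw i u v, sw i u v, sw_sw i u v, sw_sw i u v⟩

/-- One entry is forgotten. -/
def zer [NeZero B] (i : Fin M) (u : Fin g) (b : Fin M → Fin g → Fin B) : Fin M → Fin g → Fin B :=
  fun j u' => if j = i ∧ u' = u then 0 else b j u'

/-- Everything but the two coordinates which give the entry of the table `(i, u, v)`; the digits left of `(u, v)` in
the row `u` are perturbed by the level `i`. -/
def wf [NeZero B] (i : Fin M) (u v : Fin g) (w : Sec M g B × Pt M g D B) :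
    Sec M g B × (Fin g → Fin g → Fin (D + 1)) × (Fin M → Fin g → Fin B) × (Fin M → Fin g → Fin B) :=
  (w.1, fun u' v' => if u' = u ∧ v' < v then ss w.1 w.2 i u' v' else (w.2.1 u' v').castSucc,
    zer i u w.2.2.1, zer i v w.2.2.2)

section names

variable [NeZero B] {i : Fin M} {u v : Fin g} {w w' : Sec M g B × Pt M g D B}

theorem wf_S (h : wf i u v w = wf i u v w') : w.1 = w'.1 := by
  have h1 := congrArg Prod.fst h
  exact h1

theorem wf_b (h : wf i u v w = wf i u v w') {j : Fin M} {u' : Fin g} (hj : ¬(j = i ∧ u' = u)) :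
    w.2.2.1 j u' = w'.2.2.1 j u' := by
  have h1 : zer i u w.2.2.1 = zer i u w'.2.2.1 := congrArg (fun z => z.2.2.1) h
  have h2 := congrFun (congrFun h1 j) u'
  unfold zer at h2
  rwa [if_neg hj, if_neg hj] at h2

theorem wf_b' (h : wf i u v w = wf i u v w') {j : Fin M} {v' : Fin g} (hj : ¬(j = i ∧ v' = v)) :
    w.2.2.2 j v' = w'.2.2.2 j v' := by
  have h1 : zer i v w.2.2.2 = zer i v w'.2.2.2 := congrArg (fun z => z.2.2.2) h
  have h2 := congrFun (congrFun h1 j) v'
  unfold zer at h2
  rwa [if_neg hj, if_neg hj] at h2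

theorem wf_x (h : wf i u v w = wf i u v w') {u' v' : Fin g} (hj : ¬(u' = u ∧ v' < v)) :
    w.2.1 u' v' = w'.2.1 u' v' := by
  have h1 := congrFun (congrFun (congrArg (fun z => z.2.1) h) u') v'
  simp only [wf] at h1
  rw [if_neg hj, if_neg hj] at h1
  exact Fin.castSucc_injective _ h1

theorem wf_s (h : wf i u v w = wf i u v w') {v' : Fin g} (hj : v' < v) :
    ss w.1 w.2 i u v' = ss w'.1 w'.2 i u v' := by
  have h1 := congrFun (congrFun (congrArg (fun z => z.2.1) h) u) v'
  simp only [wf] at h1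
  rwa [if_pos ⟨trivial, hj⟩, if_pos ⟨trivial, hj⟩] at h1

theorem wf_x' (h : wf i u v w = wf i u v w') (hc : w.2.2.1 i u = w'.2.2.1 i u) (u' v' : Fin g) :
    w.2.1 u' v' = w'.2.1 u' v' := by
  by_cases hj : u' = u ∧ v' < v
  · obtain ⟨rfl, hj⟩ := hj
    have h1 := wf_s h hj
    have h2 : tt w.1 w.2 i u' v' = tt w'.1 w'.2 i u' v' := by
      unfold tt
      rw [wf_S h, hc, wf_b' h fun e => hj.ne e.2]
    unfold ss at h1
    have h3 := congrArg Fin.val h1
    simp only [h2] at h3
    exact Fin.ext (by omega)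
  · exact wf_x h hj

theorem wf_inj (h : wf i u v w = wf i u v w') (hc : w.2.2.1 i u = w'.2.2.1 i u)
    (hc' : w.2.2.2 i v = w'.2.2.2 i v) : w = w' := by
  refine Prod.ext (wf_S h) (Prod.ext ?_ (Prod.ext ?_ ?_))
  · funext u' v'
    exact wf_x' h hc u' v'
  · funext j u'
    by_cases hj : j = i ∧ u' = u
    · obtain ⟨rfl, rfl⟩ := hj
      exact hc
    · exact wf_b h hj
  · funext j u'
    by_cases hj : j = i ∧ u' = v
    · obtain ⟨rfl, rfl⟩ := hj
      exact hc'
    · exact wf_b' h hj

/-- Names of levels below `i` do not depend on the column coordinate. -/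
theorem names1 (h : wf i u v w = wf i u v w') (hc : w.2.2.1 i u = w'.2.2.1 i u) (T : Fin B × Fin B → Bool)
    {j : Fin M} (hj : j < i) (u' v' : Fin g) (θ : Fin D) :
    nm (upd i u v w.1 T) w.2 j u' v' θ = nm (upd i u v w'.1 T) w'.2 j u' v' θ := by
  unfold nm
  have e1 : maskL j w.2.2.1 = maskL j w'.2.2.1 := by
    funext l a
    unfold maskL
    by_cases hl : l < j
    · rw [if_pos hl, if_pos hl]
      exact wf_b h fun e => (hl.trans hj).ne e.1
    · rw [if_neg hl, if_neg hl]
  have e2 : maskL j w.2.2.2 = maskL j w'.2.2.2 := by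
    funext l a
    unfold maskL
    by_cases hl : l < j
    · rw [if_pos hl, if_pos hl]
      exact wf_b' h fun e => (hl.trans hj).ne e.1
    · rw [if_neg hl, if_neg hl]
  have e3 : ss (upd i u v w.1 T) w.2 j = ss (upd i u v w'.1 T) w'.2 j := by
    funext a a'
    have e4 : tt (upd i u v w.1 T) w.2 j a a' = tt (upd i u v w'.1 T) w'.2 j a a' := by
      unfold tt
      rw [wf_S h, wf_b h fun e => hj.ne e.1, wf_b' h fun e => hj.ne e.1]
    unfold ss
    rw [Fin.mk.injEq, e4, wf_x' h hc a a']
  rw [e1, e2, e3]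

/-- Names of level `i` up to the position `(u, v)` do not depend on the row coordinate. -/
theorem names2 (h : wf i u v w = wf i u v w') (hc : w.2.2.2 i v = w'.2.2.2 i v) (T : Fin B × Fin B → Bool)
    {u' v' : Fin g} (hj : u' < u ∨ (u' = u ∧ v' ≤ v)) (θ : Fin D) :
    nm (upd i u v w.1 T) w.2 i u' v' θ = nm (upd i u v w'.1 T) w'.2 i u' v' θ := by
  unfold nm
  have e1 : maskL i w.2.2.1 = maskL i w'.2.2.1 := by
    funext l a
    unfold maskL
    by_cases hl : l < i
    · rw [if_pos hl, if_pos hl]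
      exact wf_b h fun e => hl.ne e.1
    · rw [if_neg hl, if_neg hl]
  have e2 : maskL i w.2.2.2 = maskL i w'.2.2.2 := by
    funext l a
    unfold maskL
    by_cases hl : l < i
    · rw [if_pos hl, if_pos hl]
      exact wf_b' h fun e => hl.ne e.1
    · rw [if_neg hl, if_neg hl]
  have e3 : maskD u' v' (ss (upd i u v w.1 T) w.2 i) = maskD u' v' (ss (upd i u v w'.1 T) w'.2 i) := by
    funext a a'
    unfold maskD
    by_cases hl : a < u' ∨ (a = u' ∧ a' < v')
    · rw [if_pos hl, if_pos hl]
      have hl' : a < u ∨ (a = u ∧ a' < v) := by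
        rcases hl with hl | ⟨hl, hl2⟩
        · rcases hj with hj | ⟨hj, _⟩
          · exact Or.inl (hl.trans hj)
          · exact Or.inl (hj ▸ hl)
        · rcases hj with hj | ⟨hj, hj2⟩
          · exact Or.inl (hl ▸ hj)
          · exact Or.inr ⟨hl.trans hj, lt_of_lt_of_le hl2 hj2⟩
      rcases hl' with hl' | ⟨hl', hl2⟩
      · have e4 : tt (upd i u v w.1 T) w.2 i a a' = tt (upd i u v w'.1 T) w'.2 i a a' := by
          unfold tt
          rw [wf_S h, wf_b h fun e => hl'.ne e.2]
          by_cases ha : a' = v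
          · rw [ha, hc]
          · rw [wf_b' h fun e => ha e.2]
        unfold ss
        rw [Fin.mk.injEq, e4, wf_x h fun e => hl'.ne e.1]
      · subst hl'
        have e5 := wf_s h hl2
        have e6 : ∀ z : Sec M g B × Pt M g D B, ss (upd i a v z.1 T) z.2 i a a' = ss z.1 z.2 i a a' := by
          intro z
          unfold ss tt
          rw [Fin.mk.injEq, upd_other _ _ fun e => hl2.ne e.2.2]
        rw [e6 w, e6 w', e5]
    · rw [if_neg hl, if_neg hl]
  rw [e1, e2, e3]

end names

end Pool.Agent.Helper87.UD
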